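import Pool.Agent.H86.MDX.Fini

/-!
# MP_a7d87e_pr: the fixation probability of majority dynamics jumps, for every odd degree `d ≥ 5`

`V d`: vertices of the `d`-regular tree (words over `d` letters without two equal consecutive
letters), the neighbours of `x` are the `d` words `R i x`; `Om d Lab`, `PP d (law d)`: independent
labels (a uniform initial label and a Poisson process of rate one of rings) at the vertices;
`IsSol p ω v`: `v x t` (the spin at `x` just before `t` is `+`) obeys the rules of the dynamics with
initial density `p`; `theta v p`: the probability that the spin of the root is finally `+`;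
`pcrit v`: the supremum of the `p ∈ [0, 1]` with `theta v p = 0`.

The proof: the event `A` that the root is finally `+` is a factor of the i.i.d. labels; for such
events the entropy inequality `(d/2) H(1_A, 1_A') ≥ (d - 1) H(1_A)` holds (`A'` = the same event at a
neighbour), which is proved on finite quotients of large girth by revealing the labels one by one.
If `P(A)` is small, it forces the mean number of final `+` neighbours of a final `+` vertex to be at
most `2 + o(1)`; but this number is at least `(d + 1)/2 ≥ 3`.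
-/

namespace Pool.Agent.Results.MP_a7d87e_pr.JumpForAllOddDegrees

open MeasureTheory ProbabilityTheory Filter Topology
open Pool.Agent.H86.MDX

/-- Let `d ≥ 5` be odd. Almost every labelling is good; for a good labelling the dynamics is unique,
and it exists (measurably); every vertex fixates; `θ_d` is monotone, `θ_d(0) = 0`, `θ_d(1) = 1`, and
`θ_d(p) = 0` or `θ_d(p) ≥ exp(- 6 d / (d - 3))` for every `p`; so, with `p_c = sup {p : θ_d(p) = 0}`,
`θ_d = 0` below `p_c`, `θ_d ≥ exp(- 6 d / (d - 3)) ≥ exp(-15)` above `p_c`, and `θ_d` is not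
continuous at `p_c`. -/
theorem result (d : ℕ) (hodd : Odd d) (hd : 5 ≤ d) :
    (∀ᵐ ω ∂PP d (law d), GoodW ω) ∧
    (∀ (p : ℝ) (ω : Om d Lab) (v v' : V d → ℝ → Prop), GoodW ω → IsSol p ω v → IsSol p ω v' →
      ∀ x t, v x t ↔ v' x t) ∧
    (∃ v : ℝ → Om d Lab → V d → ℝ → Prop, Dynamics v) ∧
    ∀ v : ℝ → Om d Lab → V d → ℝ → Prop, Dynamics v →
      (∀ p, ∀ᵐ ω ∂PP d (law d), ∀ x : V d, ∃ T : ℝ, ∀ t, T ≤ t → (v p ω x t ↔ v p ω x T)) ∧
      theta v 0 = 0 ∧ theta v 1 = 1 ∧ Monotone (theta v) ∧
      (∀ p, theta v p = 0 ∨ Real.exp (-(6 * (d : ℝ) / (d - 3))) ≤ theta v p) ∧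
      pcrit v ∈ Set.Icc (0 : ℝ) 1 ∧
      (∀ p, p < pcrit v → theta v p = 0) ∧
      (∀ p, pcrit v < p → Real.exp (-15) ≤ theta v p) ∧
      ¬ ContinuousWithinAt (theta v) (Set.Icc 0 1) (pcrit v) := by
  have h15 : Real.exp (-15) ≤ Real.exp (-(6 * (d : ℝ) / (d - 3))) := by
    have hd' : (5 : ℝ) ≤ d := by exact_mod_cast hd
    rw [Real.exp_le_exp, neg_le_neg_iff, div_le_iff₀ (by linarith)]
    linarith
  exact ⟨goodAE, unique, exist, fun v hv => ⟨fun p => fix hodd p (v p) (hv.1 p) (hv.2 p),
    theta_zero (by omega) hv, theta_one (by omega) hv, theta_mono hv, gap hodd hd hv,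
    pcrit_mem (by omega) hv, fun p hp => theta_below (by omega) hv hp,
    fun p hp => h15.trans (theta_above hodd hd hv hp), not_cont hodd hd hv⟩⟩

end Pool.Agent.Results.MP_a7d87e_pr.JumpForAllOddDegrees
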